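import Pool.Agent.Helper34.CP.Goals

/-!
# MP_d97caa_an, project CP: packets RTI and NRM
-/

open scoped ComplexOrder

namespace Pool.Agent.Helper80.CP

open Pool.Agent.Helper39.Uct
open Pool.Agent.Helper34.CP

section

variable {B : Type} [NonUnitalCStarAlgebra B]

/-- The elements `z` such that `e z e` commutes with all `e w e`, `w ∈ Q`. -/
def cm (e : B) (Q : Set B) : Submodule ℂ B where
  carrier := {z | ∀ w ∈ Q, (e * z * e) * (e * w * e) = (e * w * e) * (e * z * e)}
  add_mem' := by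
    intro a b ha hb w hw
    have h1 := ha w hw
    have h2 := hb w hw
    simp only [mul_add, add_mul, h1, h2]
  zero_mem' := by
    intro w _
    simp
  smul_mem' := by
    intro c a ha w hw
    have h1 := ha w hw
    simp only [mul_smul_comm, smul_mul_assoc, h1]

lemma cm_closed (e : B) (Q : Set B) : IsClosed (cm e Q : Set B) := by
  have : (cm e Q : Set B) = ⋂ w ∈ Q, {z | (e * z * e) * (e * w * e) = (e * w * e) * (e * z * e)} := by
    ext z
    simp only [Set.mem_iInter, Set.mem_setOf_eq]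
    rfl
  rw [this]
  refine isClosed_biInter fun w _ => ?_
  exact isClosed_eq (by fun_prop) (by fun_prop)

end

/-- PACKET RTI. -/
theorem RTI (hBAS : S_BAS) (hABEL : S_ABEL) : S_RTI := by
  intro B _ E hE hTI hNA m b hb hk
  by_contra hne
  have hB := hBAS B E hE
  obtain ⟨c, hc, h1, h2, h3⟩ := hABEL B (FF E m) (Submodule.isClosed_topologicalClosure _)
    (hB.ffMul m) (hB.ffStar m) (hTI m) b hb hne
  obtain ⟨e, he⟩ : ∃ e, e = b * c * star b := ⟨_, rfl⟩
  rw [← he] at h1 h2 h3
  have heF : e ∈ FF E m := by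
    rw [he]
    exact hB.ffMul m _ (hB.ffMul m _ hb _ hc) _ (hB.ffStar m _ hb)
  have hkill : ∀ l, m < l → ∀ x ∈ E l, e * x = 0 := by
    intro l hl x hx
    rw [he, mul_assoc, (hk l hl x hx).2, mul_zero]
  have hgen : ∀ z, (∃ p q : ℕ, (p : ℤ) - q = 0 ∧ ∃ x ∈ E p, ∃ y ∈ E q, z = x * star y) →
      z ∈ FF E m ∨ e * z = 0 := by
    rintro z ⟨p, q, hpq, x, hx, y, hy, rfl⟩
    have hpq' : p = q := by omega
    subst hpq'
    by_cases hpm : p ≤ m
    · exact Or.inl (hB.kk p m hpm x hx y hy)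
    · right
      rw [← mul_assoc, hkill p (by omega) x hx, zero_mul]
  have hP1 : BB E 0 ≤ cm e (FF E m : Set B) := by
    apply Submodule.topologicalClosure_minimal
    · rw [Submodule.span_le]
      intro z hz
      rcases hgen z hz with h | h
      · intro w hw
        exact h3 z h w hw
      · intro w hw
        simp [h]
    · exact cm_closed e _
  have hP2 : BB E 0 ≤ cm e (BB E 0 : Set B) := by
    apply Submodule.topologicalClosure_minimal
    · rw [Submodule.span_le]
      intro z hz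
      rcases hgen z hz with h | h
      · intro w hw
        exact (hP1 hw z h).symm
      · intro w hw
        simp [h]
    · exact cm_closed e _
  exact h2 (hNA e (hB.ffBB m heF) h1 (fun x hx y hy => hP2 hx y hy))

/-- PACKET NRM. -/
theorem NRM (hBAS : S_BAS) (hCUT : S_CUT) : Pool.Agent.Helper34.CP.S_NRM := by
  intro B _ E hE hNR m c hc ε he0 he1
  have hB := hBAS B E hE
  by_cases hcc : star c * c = 0
  · refine ⟨m, le_rfl, 0, Submodule.zero_mem _, by simp, ?_⟩
    rw [hcc]
    simp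
  · obtain ⟨g, hg, hgs, hg0, hest⟩ := hCUT B (FF E m) (Submodule.isClosed_topologicalClosure _)
      (hB.ffMul m) (hB.ffStar m) c (hB.ffMul m _ (hB.ffStar m _ hc) _ hc) hcc ε he0 he1
    have h1 : ∃ l, m < l ∧ ∃ x ∈ E l, g * x ≠ 0 := by
      by_contra hcon
      push Not at hcon
      apply hg0
      apply hNR m g hg
      intro l hl x hx
      rw [hgs]
      exact ⟨hcon l hl x hx, hcon l hl x hx⟩
    obtain ⟨l, hl, x, hx, hgx⟩ := h1
    have hv : g * x ∈ E l := hB.ffE m l hl.le g hg x hx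
    have hn : ‖g * x‖ ≠ 0 := norm_ne_zero_iff.mpr hgx
    have hz1 : ‖((‖g * x‖⁻¹ : ℝ) : ℂ) • (g * x)‖ = 1 := by
      rw [norm_smul, Complex.norm_real, norm_inv, norm_norm, inv_mul_cancel₀ hn]
    refine ⟨l, hl.le, ((‖g * x‖⁻¹ : ℝ) : ℂ) • (g * x), Submodule.smul_mem _ _ hv, hz1.le, ?_⟩
    have h2 := hest (((‖g * x‖⁻¹ : ℝ) : ℂ) • (g * x)) (subset_closure
      ⟨((‖g * x‖⁻¹ : ℝ) : ℂ) • x, by rw [mul_smul_comm]⟩)
    rw [hz1] at h2
    simpa using h2

end Pool.Agent.Helper80.CP
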